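import Pool.Agent.H.MP_975ca8_an.Gen

open Set

namespace Pool.Agent.Results.MP_975ca8_an.Periodic

variable {k : ℕ}

/-- x is a positive solution of x (n + 1) = 1 / (B n * x n + x (n - l)), n ≥ 0. -/
def IsSol (l : ℕ) (B : ZMod k → ℝ) (x : ℤ → ℝ) : Prop :=
  (∀ i : ℤ, -l ≤ i → i ≤ 0 → 0 < x i) ∧
    ∀ n : ℤ, 0 ≤ n → x (n + 1) = 1 / (B n * x n + x (n - l))

/-- The cyclic polynomial system z (j + 1) (B j z j + z (j - l)) = 1, j in ℤ / k, has a positive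
solution. -/
def Cyc (l : ℕ) (B : ZMod k → ℝ) : Prop :=
  ∃ z : ZMod k → ℝ, (∀ j, 0 < z j) ∧ ∀ j, z (j + 1) * (B j * z j + z (j - l)) = 1

open Pool.Agent.H.MP_975ca8_an in
theorem result (k l : ℕ) (hk : 2 ≤ k) :
    (∀ B : ZMod k → ℝ, (∀ j, 0 ≤ B j) →
      ((∀ x, IsSol l B x → BddAbove (x '' Ici (-l))) ↔ Cyc l B) ∧
      (¬Cyc l B → ∀ x, IsSol l B x → ¬BddAbove (x '' Ici (-l))) ∧
      ((∀ j, 0 < B j) → k.Coprime (l + 2) → Cyc l B) ∧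
      ((∀ j, 0 < B j) → Cyc l B → ∀ j, 1 < ∏ i ∈ Finset.range k,
        (B (j + i * (l + 2) + (l + 1)) + 1 / B (j + i * (l + 2))))) ∧
    (¬k.Coprime (l + 2) → ∃ B : ZMod k → ℝ, (∀ j, 0 < B j) ∧
      (∀ t, (∀ j, B (j + t) = B j) → t = 0) ∧ ¬Cyc l B) := by
  refine ⟨fun B hB => ?_, fun h => ?_⟩
  · simpa only [Sol, Per, IsSol, Cyc, Nat.cast_zero, sub_zero, zero_add] using
      main (p := 0) (q := l) (by omega : 0 < k) l.zero_le hB
  · simpa only [Per, Cyc, Nat.cast_zero, sub_zero] using sharp (p := 0) (q := l) (by omega : 0 < k)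
      (Nat.gcd_dvd_left k (l + 2)) (by simpa using Nat.gcd_dvd_right k (l + 2)) fun h1 =>
      h (Nat.dvd_one.1 ((Nat.dvd_add_right h1).1 (Nat.gcd_dvd_right k (l + 2))))

end Pool.Agent.Results.MP_975ca8_an.Periodic
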